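import Pool.Agent.H88.WR.Targets

/-!
# MP_479f73_an: the space with a given norm
-/

set_option autoImplicit false

open Filter Topology Set Pool.Agent.H85.WMP Pool.Agent.H88.WR

namespace Pool.Agent.H49.WR

noncomputable section

/-- the norm as a group norm -/
def gn (𝕜 : Type) [RCLike 𝕜] (M : Set (Finset ℕ)) (N : (ℕ →₀ 𝕜) → ℝ) (h : TN 𝕜 M N) :
    AddGroupNorm (ℕ →₀ 𝕜) where
  toFun := N
  map_zero' := by
    have := h.smul 0 0
    simpa using this
  add_le' := h.add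
  neg' := fun x => by
    have := h.smul (-1) x
    simpa using this
  eq_zero_of_map_eq_zero' := fun x hx => by
    ext i
    have := h.coord x i
    rw [hx] at this
    simpa using this

theorem pf_SPE (𝕜 : Type) [RCLike 𝕜] : T_SPE 𝕜 := by
  intro M N h
  let I1 : NormedAddCommGroup (ℕ →₀ 𝕜) := (gn 𝕜 M N h).toNormedAddCommGroup
  let I2 : NormedSpace 𝕜 (ℕ →₀ 𝕜) :=
    { (inferInstance : Module 𝕜 (ℕ →₀ 𝕜)) with
      norm_smul_le := fun c x => le_of_eq (h.smul c x) }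
  exact ⟨@Spc.mk 𝕜 _ N (ℕ →₀ 𝕜) I1 I2 (LinearEquiv.refl 𝕜 (ℕ →₀ 𝕜)) fun _ => rfl⟩

end

end Pool.Agent.H49.WR
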